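import Pool.Agent.Helper2.EC_C.Goals

set_option autoImplicit false

open MeasureTheory Filter Topology Set

namespace ECC.PkE4T

open EC237 ECC

open scoped ArithmeticFunction.sigma MatrixGroups UpperHalfPlane

theorem HS_eq (q : ℝ) (hq : ‖q‖ < 1) : HS q = ∑' e : ℕ+, (σ 3 e : ℝ) * q ^ (e : ℕ) := by
  rw [← tsum_prod_pow_eq_tsum_sigma 3 hq, ← (summable_prod_mul_pow 3 hq).tsum_prod]
  unfold HS LS
  rw [← (Equiv.prodCongr Equiv.pnatEquivNat Equiv.pnatEquivNat).symm.tsum_eq]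
  refine tsum_congr fun p => ?_
  simp [Equiv.pnatEquivNat]

theorem E4_eq (t : ℝ) (ht : 0 < t) (τ : ℍ) (hτ : (τ : ℂ) = Complex.I * t) :
    ModularForm.E₄ τ = ((ES (Real.exp (-(2 * Real.pi * t))) : ℝ) : ℂ) := by
  have hq : ‖Real.exp (-(2 * Real.pi * t))‖ < 1 := by
    rw [Real.norm_eq_abs, Real.abs_exp, Real.exp_lt_one_iff]
    have := Real.pi_pos
    have : 0 < 2 * Real.pi * t := by positivity
    linarith
  have h1 := EisensteinSeries.q_expansion_bernoulli (k := 4) (by norm_num) (by decide) τ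
  have h2 : Complex.exp (2 * Real.pi * Complex.I * τ) =
      ((Real.exp (-(2 * Real.pi * t)) : ℝ) : ℂ) := by
    rw [hτ]
    push_cast
    congr 1
    linear_combination (2 * Real.pi * t : ℂ) * Complex.I_mul_I
  have h3 : (bernoulli 4 : ℂ) = -1 / 30 := by
    have : bernoulli 4 = -1 / 30 := by
      rw [bernoulli_eq_bernoulli'_of_ne_one (by norm_num), bernoulli'_four]
    rw [this]
    push_cast
    ring
  rw [h1, h2, h3]
  unfold ES
  rw [HS_eq _ hq]
  push_cast [Complex.ofReal_tsum]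
  have h4 : ∀ n : ℕ+, ((σ (4 - 1) n : ℕ) : ℂ) * Complex.exp (-(2 * Real.pi * t)) ^ (n : ℤ) =
      ((σ 3 n : ℕ) : ℂ) * Complex.exp (-(2 * Real.pi * t)) ^ (n : ℕ) := fun n => by
    norm_num
  rw [tsum_congr h4]
  ring

theorem S_mem : ((ModularGroup.S : SL(2, ℤ)) : GL (Fin 2) ℝ) ∈ 𝒮ℒ := ⟨_, rfl⟩

theorem e4t : G_E4T := by
  intro t ht
  have him : 0 < (Complex.I * t).im := by simpa using ht
  let τ : ℍ := ⟨Complex.I * t, him⟩
  have hτ : (τ : ℂ) = Complex.I * t := rfl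
  have h1 := congr_fun (SlashInvariantForm.slash_action_eqn ModularForm.E₄ _ S_mem) τ
  have h2 := SlashInvariantForm.slash_S_apply ModularForm.E₄ 4 τ
  rw [ModularForm.SL_slash, h1] at h2
  have hne : (τ : ℂ) ≠ 0 := UpperHalfPlane.ne_zero τ
  have hinv : ((UpperHalfPlane.mk _ τ.im_inv_neg_coe_pos : ℍ) : ℂ) =
      Complex.I * ((1 / t : ℝ) : ℂ) := by
    change (-(τ : ℂ))⁻¹ = _
    rw [hτ]
    have ht' : (t : ℂ) ≠ 0 := by exact_mod_cast ht.ne'
    push_cast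
    have hI : (-(Complex.I * t))⁻¹ = Complex.I * (1 / t) := by
      rw [inv_eq_iff_eq_inv, mul_inv, one_div, inv_inv, Complex.inv_I]
      ring
    exact hI
  have ht1 : 0 < 1 / t := by positivity
  rw [E4_eq t ht τ hτ, E4_eq (1 / t) ht1 _ hinv] at h2
  have h5 : (2 * Real.pi / t) = 2 * Real.pi * (1 / t) := by ring
  rw [h5]
  have h6 : ((t ^ 4 * ES (Real.exp (-(2 * Real.pi * t))) : ℝ) : ℂ) =
      ((ES (Real.exp (-(2 * Real.pi * (1 / t)))) : ℝ) : ℂ) := by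
    rw [Complex.ofReal_mul, h2, hτ]
    have ht' : (t : ℂ) ≠ 0 := by exact_mod_cast ht.ne'
    have h7 : (Complex.I * (t : ℂ)) ^ (-4 : ℤ) = ((t : ℂ) ^ 4)⁻¹ := by
      rw [zpow_neg]
      congr 1
      have : (Complex.I * (t : ℂ)) ^ (4 : ℤ) = (Complex.I * (t : ℂ)) ^ 4 := by norm_cast
      rw [this, mul_pow, Complex.I_pow_four, one_mul]
    rw [h7]
    push_cast
    field_simp
  exact_mod_cast h6.symm

end ECC.PkE4T
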