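import Pool.Agent.Helper2.EC_C.Goals
import Pool.Agent.Helper2.EC_C.Basic

set_option autoImplicit false

namespace ECC.PkPAR

open EC237

theorem chi_two (M : ℕ) : chi (((2 * M : ℕ)) : ℤ) = -chi (M : ℤ) := by
  unfold EC237.chi
  push_cast
  have h : (M : ℤ) % 3 = 0 ∨ (M : ℤ) % 3 = 1 ∨ (M : ℤ) % 3 = 2 := by omega
  rcases h with h | h | h
  · have h2 : (2 * (M : ℤ)) % 3 = 0 := by omega
    simp [h, h2]
  · have h2 : (2 * (M : ℤ)) % 3 = 2 := by omega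
    simp [h, h2]
  · have h2 : (2 * (M : ℤ)) % 3 = 1 := by omega
    simp [h, h2]

theorem par : G_PAR := by
  intro q hq
  refine ⟨?_, ?_, ?_, ?_⟩
  · have h := LS_neg_arg PG.chi hq
    have e1 : LS (fun M _ => chi ((2 * M : ℕ) : ℤ)) (q ^ 2)
        = -LS (fun M _ => chi (M : ℤ)) (q ^ 2) := by
      rw [← LS_neg]
      exact LS_congr (fun M ν _ _ => chi_two M) _
    have e2 : LS (fun M _ => chi ((2 * M : ℕ) : ℤ)) (q ^ 4)
        = -LS (fun M _ => chi (M : ℤ)) (q ^ 4) := by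
      rw [← LS_neg]
      exact LS_congr (fun M ν _ _ => chi_two M) _
    rw [e1, e2] at h
    unfold aS
    rw [h]; ring
  · have h := LS_neg_arg (PG.chi.mul (PG.M.pow 2)) hq
    have e1 : ∀ z : ℝ, LS (fun M _ => chi ((2 * M : ℕ) : ℤ) * (((2 * M : ℕ)) : ℝ) ^ 2) z
        = -4 * LS (fun M _ => chi (M : ℤ) * (M : ℝ) ^ 2) z := by
      intro z
      rw [← LS_mul_left]
      refine LS_congr (fun M ν _ _ => ?_) _
      show chi ((2 * M : ℕ) : ℤ) * (((2 * M : ℕ)) : ℝ) ^ 2 = -4 * (chi (M : ℤ) * (M : ℝ) ^ 2)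
      rw [chi_two]; push_cast; ring
    rw [e1, e1] at h
    unfold bS
    rw [h]; ring
  · have h := LS_neg_arg (PG.chi.mul (PG.N.pow 2)) hq
    have e1 : ∀ z : ℝ, LS (fun M ν => chi ((2 * M : ℕ) : ℤ) * (ν : ℝ) ^ 2) z
        = -LS (fun M ν => chi (M : ℤ) * (ν : ℝ) ^ 2) z := by
      intro z
      rw [← LS_neg]
      refine LS_congr (fun M ν _ _ => ?_) _
      show chi ((2 * M : ℕ) : ℤ) * (ν : ℝ) ^ 2 = -(chi (M : ℤ) * (ν : ℝ) ^ 2)
      rw [chi_two]; ring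
    have e2 : ∀ z : ℝ, LS (fun M ν => chi (M : ℤ) * (((2 * ν : ℕ)) : ℝ) ^ 2) z
        = 4 * LS (fun M ν => chi (M : ℤ) * (ν : ℝ) ^ 2) z := by
      intro z
      rw [← LS_mul_left]
      refine LS_congr (fun M ν _ _ => ?_) _
      show chi (M : ℤ) * (((2 * ν : ℕ)) : ℝ) ^ 2 = 4 * (chi (M : ℤ) * (ν : ℝ) ^ 2)
      push_cast; ring
    have e3 : ∀ z : ℝ, LS (fun M ν => chi ((2 * M : ℕ) : ℤ) * (((2 * ν : ℕ)) : ℝ) ^ 2) z
        = -4 * LS (fun M ν => chi (M : ℤ) * (ν : ℝ) ^ 2) z := by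
      intro z
      rw [← LS_mul_left]
      refine LS_congr (fun M ν _ _ => ?_) _
      show chi ((2 * M : ℕ) : ℤ) * (((2 * ν : ℕ)) : ℝ) ^ 2 = -4 * (chi (M : ℤ) * (ν : ℝ) ^ 2)
      rw [chi_two]; push_cast; ring
    rw [e1, e2, e3] at h
    unfold XS
    rw [h]; ring
  · have h := LS_neg_arg PG.N hq
    have e2 : ∀ z : ℝ, LS (fun _ ν => (((2 * ν : ℕ)) : ℝ)) z
        = 2 * LS (fun _ ν => (ν : ℝ)) z := by
      intro z
      rw [← LS_mul_left]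
      refine LS_congr (fun M ν _ _ => ?_) _
      show (((2 * ν : ℕ)) : ℝ) = 2 * (ν : ℝ)
      push_cast; ring
    rw [e2, e2] at h
    unfold GS
    rw [h]; ring

end ECC.PkPAR
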